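import Mathlib
import Pool.Agent.E8helper42.AZ.Stm4
import Pool.Agent.E8helper36.AZ.TRAB

/-!
# Project AZ, part AB3: the differential equations of `A` and `B` for `ζ(2)`, and of `exp`
-/

set_option autoImplicit false

namespace Pool.Agent.E8helper30.AZ

open Polynomial Pool.Agent.E8helper42.AZ Pool.Agent.E8helper36.AZ

/-- the derivation `θ` on power series with rational coefficients -/
lemma th_emb {φ : PowerSeries ℚ →+* RR} (hφ : IsEmb φ) (s s' : PowerSeries ℚ)
    (h : ∀ n : ℕ, PowerSeries.coeff n s' = (n : ℚ) * PowerSeries.coeff n s) :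
    d0.th (φ s) = φ s' := by
  ext1
  funext g
  rw [d0.coeff_th, hφ s, hφ s', d0_χ₂, map_zero, zero_mul, add_zero, d0_χ₁]
  split_ifs with hg
  · obtain ⟨h1, h2, k, hk⟩ := hg
    obtain ⟨n, rfl⟩ := Int.eq_ofNat_of_zero_le (show 0 ≤ k by omega)
    have h3 : (p2 g / 2).toNat = n := by omega
    rw [h3, h1, derivative_C, zero_add, hk, h, ← C_mul]
    congr 1
    push_cast
    ring
  · simp

lemma th_ser {φ : PowerSeries ℚ →+* RR} (hφ : IsEmb φ) (c : ℕ → ℚ) (t : ℚ) (j : ℕ) :
    d0.th (φ (ser c t j)) = φ (ser c t (j + 1)) := by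
  apply th_emb hφ
  intro n
  simp only [ser, PowerSeries.coeff_mk]
  ring

lemma th_exp {φ : PowerSeries ℚ →+* RR} (hφ : IsEmb φ) :
    d0.th (φ (PowerSeries.exp ℚ)) = d0.z * φ (PowerSeries.exp ℚ) := by
  rw [← emb_X hφ, ← map_mul]
  apply th_emb hφ
  intro n
  cases n with
  | zero => simp
  | succ n =>
    rw [PowerSeries.coeff_succ_X_mul, PowerSeries.coeff_exp, PowerSeries.coeff_exp]
    have h2 : ((n + 1).factorial : ℚ) = ((n : ℚ) + 1) * n.factorial := by
      rw [Nat.factorial_succ n]; push_cast; ring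
    have h3 : ((n).factorial : ℚ) ≠ 0 := by exact_mod_cast Nat.factorial_ne_zero n
    have h4 : ((n : ℚ) + 1) ≠ 0 := by positivity
    simp only [eq_ratCast, Rat.cast_id]
    rw [h2]
    push_cast
    field_simp

/-- AB3 -/
theorem t_AB3 : S_AB3 := by
  intro φ hφ
  refine ⟨th_exp hφ, fun a b hab t => ?_⟩
  have key : ∀ c : ℕ → ℚ, Lop3 d0 t (φ (ser c t 0)) = φ (ser c t 3 + PowerSeries.C t * (PowerSeries.X *
      (PowerSeries.C 11 * ser c t 2 + PowerSeries.C 11 * ser c t 1 + PowerSeries.C 3 * ser c t 0)) -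
        PowerSeries.C (t ^ 2) * (PowerSeries.X * (PowerSeries.X * (ser c t 1 + ser c t 0)))) := by
    intro c
    rw [Lop3, th_ser hφ, th_ser hφ, th_ser hφ]
    simp only [map_add, map_sub, map_mul, emb_X hφ, emb_C, smul_eq_mul_alg, Rat.cast_pow,
      Rat.cast_ofNat]
  have hcoef : ∀ (c : ℕ → ℚ) (m : ℕ), PowerSeries.coeff m (ser c t 3 + PowerSeries.C t * (PowerSeries.X *
      (PowerSeries.C 11 * ser c t 2 + PowerSeries.C 11 * ser c t 1 + PowerSeries.C 3 * ser c t 0)) -
        PowerSeries.C (t ^ 2) * (PowerSeries.X * (PowerSeries.X * (ser c t 1 + ser c t 0)))) =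
      match m with
      | 0 => 0
      | 1 => c 1 * t + 3 * c 0 * t
      | (n + 2) => t ^ (n + 2) / ((n + 1).factorial : ℚ) * (((n : ℚ) + 2) ^ 2 * c (n + 2) +
          (11 * ((n : ℚ) + 1) ^ 2 + 11 * ((n : ℚ) + 1) + 3) * c (n + 1) - ((n : ℚ) + 1) ^ 2 * c n) := by
    intro c m
    match m with
    | 0 => simp [ser]
    | 1 =>
      rw [map_sub, map_add, PowerSeries.coeff_C_mul, PowerSeries.coeff_C_mul,
        PowerSeries.coeff_succ_X_mul, PowerSeries.coeff_succ_X_mul]
      simp [ser]
      ring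
    | (n + 2) =>
      rw [map_sub, map_add, PowerSeries.coeff_C_mul, PowerSeries.coeff_C_mul,
        PowerSeries.coeff_succ_X_mul, PowerSeries.coeff_succ_X_mul, PowerSeries.coeff_succ_X_mul]
      simp only [map_add, PowerSeries.coeff_C_mul, ser, PowerSeries.coeff_mk]
      have h1 : ((n + 2).factorial : ℚ) = ((n : ℚ) + 2) * (n + 1).factorial := by
        rw [Nat.factorial_succ (n + 1)]; push_cast; ring
      have h2 : ((n + 1).factorial : ℚ) = ((n : ℚ) + 1) * n.factorial := by
        rw [Nat.factorial_succ n]; push_cast; ring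
      have h3 : ((n).factorial : ℚ) ≠ 0 := by exact_mod_cast Nat.factorial_ne_zero n
      have h4 : ((n : ℚ) + 1) ≠ 0 := by positivity
      have h5 : ((n : ℚ) + 2) ≠ 0 := by positivity
      rw [h1, h2]
      push_cast
      field_simp
      ring
  constructor
  · rw [key]
    have : (ser a t 3 + PowerSeries.C t * (PowerSeries.X *
      (PowerSeries.C 11 * ser a t 2 + PowerSeries.C 11 * ser a t 1 + PowerSeries.C 3 * ser a t 0)) -
        PowerSeries.C (t ^ 2) * (PowerSeries.X * (PowerSeries.X * (ser a t 1 + ser a t 0)))) = 0 := by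
      ext m
      rw [hcoef, map_zero]
      match m with
      | 0 => rfl
      | 1 => simp only [hab.a0, hab.a1]; ring
      | (n + 2) => simp only [hab.rec_a n, mul_zero]
    rw [this, map_zero]
  · rw [key]
    have : (ser b t 3 + PowerSeries.C t * (PowerSeries.X *
      (PowerSeries.C 11 * ser b t 2 + PowerSeries.C 11 * ser b t 1 + PowerSeries.C 3 * ser b t 0)) -
        PowerSeries.C (t ^ 2) * (PowerSeries.X * (PowerSeries.X * (ser b t 1 + ser b t 0)))) =
        PowerSeries.C (-5 * t) * PowerSeries.X := by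
      ext m
      rw [hcoef, PowerSeries.coeff_C_mul, PowerSeries.coeff_X]
      match m with
      | 0 => simp
      | 1 => simp only [hab.b0, hab.b1]; simp
      | (n + 2) => simp only [hab.rec_b n, mul_zero]; simp
    rw [this, map_mul, emb_X hφ, emb_C, smul_eq_mul_alg]
    push_cast
    rfl

end Pool.Agent.E8helper30.AZ
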